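import Mathlib
import Pool.Agent.Helper26.AF.Goals

/-!
Project AF (MP_af6c86_pr), packet ORBS: the sign of a permutation and its number of orbits.
-/

namespace Pool.Agent.Helper92.AF

open Pool.Agent.Helper26.AF

section

variable {D : Type} [Fintype D] [DecidableEq D]

/-- The class of `x`: a fixed point or a cycle factor. -/
def cls (π : Equiv.Perm D) (x : D) : π.cycleFactorsFinset ⊕ {x : D // π x = x} :=
  if h : π x = x then Sum.inr ⟨x, h⟩
  else Sum.inl ⟨π.cycleOf x,
    Equiv.Perm.cycleOf_mem_cycleFactorsFinset_iff.2 (Equiv.Perm.mem_support.2 h)⟩

theorem cls_eq (π : Equiv.Perm D) (x y : D) : cls π x = cls π y ↔ π.SameCycle x y := by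
  unfold cls
  by_cases hx : π x = x
  · by_cases hy : π y = y
    · rw [dif_pos hx, dif_pos hy]
      constructor
      · intro h
        have h1 : x = y := by
          have := Sum.inr_injective h
          exact congrArg Subtype.val this
        rw [h1]
      · intro h
        have : x = y := h.eq_of_left hx
        subst this
        rfl
    · rw [dif_pos hx, dif_neg hy]
      constructor
      · intro h; cases h
      · intro h
        exact absurd ((h.apply_eq_self_iff).1 hx) hy
  · by_cases hy : π y = y
    · rw [dif_neg hx, dif_pos hy]
      constructor
      · intro h; cases h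
      · intro h
        exact absurd ((h.apply_eq_self_iff).2 hy) hx
    · rw [dif_neg hx, dif_neg hy]
      constructor
      · intro h
        have h1 : π.cycleOf x = π.cycleOf y := by
          have := Sum.inl_injective h
          exact congrArg Subtype.val this
        by_contra hn
        have h2 : (π.cycleOf x) x = (π.cycleOf y) x := by rw [h1]
        rw [Equiv.Perm.cycleOf_apply_self,
          Equiv.Perm.cycleOf_apply_of_not_sameCycle (fun h => hn h.symm)] at h2
        exact hx h2
      · intro h
        have h1 : π.cycleOf x = π.cycleOf y := h.cycleOf_eq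
        simp only [h1]

theorem orb_add (π : Equiv.Perm D) :
    orb π = π.cycleFactorsFinset.card + (Fintype.card D - π.support.card) := by
  classical
  have hbij : Function.Bijective
      (Quotient.lift (s := Equiv.Perm.SameCycle.setoid π) (cls π)
        (fun x y h => (cls_eq π x y).2 h)) := by
    constructor
    · intro a b
      induction a using Quotient.inductionOn with
      | h x =>
        induction b using Quotient.inductionOn with
        | h y =>
          intro h
          exact Quotient.sound ((cls_eq π x y).1 h)
    · rintro (⟨c, hc⟩ | ⟨x, hx⟩)
      · have hc' := Equiv.Perm.mem_cycleFactorsFinset_iff.1 hc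
        obtain ⟨x, hx⟩ := hc'.1.nonempty_support
        refine ⟨Quotient.mk _ x, ?_⟩
        show cls π x = _
        have h1 : π.cycleOf x = c := (Equiv.Perm.cycle_is_cycleOf hx hc).symm
        have h2 : π x ≠ x := by
          rw [← hc'.2 x hx]
          exact Equiv.Perm.mem_support.1 hx
        unfold cls
        rw [dif_neg h2]
        simp only [h1]
      · refine ⟨Quotient.mk _ x, ?_⟩
        show cls π x = _
        unfold cls
        rw [dif_pos hx]
  unfold orb
  rw [Nat.card_congr (Equiv.ofBijective _ hbij), Nat.card_sum, Nat.card_eq_fintype_card,
    Nat.card_eq_fintype_card, Fintype.card_coe]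
  congr 1
  rw [Fintype.card_subtype, ← Finset.card_compl]
  congr 1
  ext x
  simp

end

theorem goalORBS : StmtORBS := by
  intro D _ _ π
  have h1 := orb_add π
  have h2 : π.support.card ≤ Fintype.card D := Finset.card_le_univ _
  rw [Equiv.Perm.sign_of_cycleType]
  have h3 : Multiset.card π.cycleType = π.cycleFactorsFinset.card := by
    rw [Equiv.Perm.cycleType_def, Multiset.card_map]; rfl
  have h4 : Fintype.card D + orb π =
      (π.cycleType.sum + Multiset.card π.cycleType) + 2 * (Fintype.card D - π.support.card) := by
    rw [h3, Equiv.Perm.sum_cycleType, h1]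
    omega
  rw [h4, pow_add ((-1 : ℤ)), pow_mul]
  simp

end Pool.Agent.Helper92.AF
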