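import Mathlib
import Pool.Agent.Helper26.AF.Goals2

/-!
Project AF (MP_af6c86_pr), packet INS: insertion of a vertex of degree two in a pairing.
-/

namespace Pool.Agent.Helper92.AF

open Pool.Agent.Helper26.AF

/-- A map that respects one step of a permutation respects its cycles. -/
theorem sc_map {D E : Type} (π : Equiv.Perm D) (ψ : Equiv.Perm E) (g : D → E)
    (h : ∀ x, ψ.SameCycle (g x) (g (π x))) :
    ∀ x y, π.SameCycle x y → ψ.SameCycle (g x) (g y) := by
  rintro x y ⟨i, rfl⟩
  induction i using Int.induction_on with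
  | zero => exact Equiv.Perm.SameCycle.refl _ _
  | succ i ih =>
    have h1 := h ((π ^ (i : ℤ)) x)
    have h2 : π ((π ^ (i : ℤ)) x) = (π ^ ((i : ℤ) + 1)) x := by
      rw [add_comm, zpow_one_add]; rfl
    rw [h2] at h1
    exact ih.trans h1
  | pred i ih =>
    have h1 := h ((π ^ (-(i : ℤ) - 1)) x)
    have h2 : π ((π ^ (-(i : ℤ) - 1)) x) = (π ^ (-(i : ℤ))) x := by
      have : (π ^ (-(i : ℤ))) = π * π ^ (-(i : ℤ) - 1) := by
        rw [← zpow_one_add]; congr 1; ring
      rw [this]; rfl
    rw [h2] at h1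
    exact ih.trans h1.symm

/-- Two permutations with maps in both directions have the same number of cycles. -/
theorem orb_eq {D E : Type} (π : Equiv.Perm D) (ψ : Equiv.Perm E) (g : D → E) (r : E → D)
    (h : ∀ x, ψ.SameCycle (g x) (g (π x))) (h' : ∀ z, π.SameCycle (r z) (r (ψ z)))
    (hr : ∀ x, π.SameCycle (r (g x)) x) (hg : ∀ z, ψ.SameCycle (g (r z)) z) :
    orb π = orb ψ := by
  unfold orb
  refine Nat.card_congr
    { toFun := Quotient.map' g (fun x y hxy => sc_map π ψ g h x y hxy)
      invFun := Quotient.map' r (fun x y hxy => sc_map ψ π r h' x y hxy)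
      left_inv := ?_
      right_inv := ?_ }
  · intro q
    induction q using Quotient.inductionOn' with
    | h x => exact Quotient.sound' (hr x)
  · intro q
    induction q using Quotient.inductionOn' with
    | h z => exact Quotient.sound' (hg z)

theorem ins1 {H : Type} [DecidableEq H] (τ : Equiv.Perm H) (h : H) (hτ : IsPair τ) :
    ∃ τ', IsIns τ h τ' ∧ IsPair τ' := by
  let f : H ⊕ Bool → H ⊕ Bool := fun z => match z with
    | Sum.inl x => if x = h then Sum.inr false else if x = τ h then Sum.inr true else Sum.inl (τ x)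
    | Sum.inr false => Sum.inl h
    | Sum.inr true => Sum.inl (τ h)
  have fa : f (Sum.inr false) = Sum.inl h := rfl
  have fb : f (Sum.inr true) = Sum.inl (τ h) := rfl
  have fc : f (Sum.inl h) = Sum.inr false := by simp [f]
  have fd : f (Sum.inl (τ h)) = Sum.inr true := by
    have := (hτ h).2
    simp [f, this]
  have fe : ∀ x, x ≠ h → x ≠ τ h → f (Sum.inl x) = Sum.inl (τ x) := by
    intro x h1 h2
    simp [f, h1, h2]
  have hinv : Function.Involutive f := by
    intro z
    rcases z with x | b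
    · by_cases h1 : x = h
      · subst h1; rw [fc, fa]
      · by_cases h2 : x = τ h
        · subst h2; rw [fd, fb]
        · rw [fe x h1 h2, fe (τ x), (hτ x).1]
          · intro h3
            apply h2
            rw [← h3, (hτ x).1]
          · intro h3
            exact h1 (τ.injective h3)
    · cases b
      · rw [fa, fc]
      · rw [fb, fd]
  refine ⟨hinv.toPerm f, ⟨fa, fb, fc, fd, fe⟩, ?_⟩
  intro z
  refine ⟨hinv z, ?_⟩
  show f z ≠ z
  rcases z with x | b
  · by_cases h1 : x = h
    · subst h1; rw [fc]; simp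
    · by_cases h2 : x = τ h
      · subst h2; rw [fd]; simp
      · rw [fe x h1 h2]
        intro h3
        exact (hτ x).2 (Sum.inl_injective h3)
  · cases b
    · rw [fa]; simp
    · rw [fb]; simp

theorem ins2 {H : Type} [DecidableEq H] (τ' : Equiv.Perm (H ⊕ Bool)) (hτ : IsPair τ')
    (hne : τ' (Sum.inr false) ≠ Sum.inr true) : ∃ τ h, IsPair τ ∧ IsIns τ h τ' := by
  have h1 : ∃ h, τ' (Sum.inr false) = Sum.inl h := by
    rcases hz : τ' (Sum.inr false) with h | b
    · exact ⟨h, rfl⟩
    · cases b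
      · exact absurd hz (hτ _).2
      · exact absurd hz hne
  have h2 : ∃ h, τ' (Sum.inr true) = Sum.inl h := by
    rcases hz : τ' (Sum.inr true) with h | b
    · exact ⟨h, rfl⟩
    · cases b
      · exfalso
        apply hne
        rw [← hz, (hτ _).1]
      · exact absurd hz (hτ _).2
  obtain ⟨h, ha⟩ := h1
  obtain ⟨k, hb⟩ := h2
  have hc : τ' (Sum.inl h) = Sum.inr false := by rw [← ha, (hτ _).1]
  have hd : τ' (Sum.inl k) = Sum.inr true := by rw [← hb, (hτ _).1]
  have hhk : h ≠ k := by
    rintro rfl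
    rw [hc] at hd
    simp at hd
  have he : ∀ x, x ≠ h → x ≠ k → ∃ y, τ' (Sum.inl x) = Sum.inl y := by
    intro x hx hx'
    rcases hz : τ' (Sum.inl x) with y | b
    · exact ⟨y, rfl⟩
    · exfalso
      have h3 : τ' (Sum.inr b) = Sum.inl x := by rw [← hz, (hτ _).1]
      cases b
      · rw [ha] at h3
        exact hx (Sum.inl_injective h3).symm
      · rw [hb] at h3
        exact hx' (Sum.inl_injective h3).symm
  let f : H → H := fun x => if x = h then k else if x = k then h else
    (match τ' (Sum.inl x) with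
      | Sum.inl y => y
      | Sum.inr _ => x)
  have fh : f h = k := by simp [f]
  have fk : f k = h := by simp [f, hhk.symm]
  have fx : ∀ x, x ≠ h → x ≠ k → τ' (Sum.inl x) = Sum.inl (f x) := by
    intro x hx hx'
    obtain ⟨y, hy⟩ := he x hx hx'
    simp [f, hx, hx', hy]
  have fxh : ∀ x, x ≠ h → x ≠ k → f x ≠ h := by
    intro x hx hx' h3
    have h4 := fx x hx hx'
    rw [h3, ← ha] at h4
    exact absurd (τ'.injective h4) (by simp)
  have fxk : ∀ x, x ≠ h → x ≠ k → f x ≠ k := by
    intro x hx hx' h3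
    have h4 := fx x hx hx'
    rw [h3, ← hb] at h4
    exact absurd (τ'.injective h4) (by simp)
  have hinv : Function.Involutive f := by
    intro x
    by_cases hx : x = h
    · subst hx; rw [fh, fk]
    · by_cases hx' : x = k
      · subst hx'; rw [fk, fh]
      · have h4 := fx x hx hx'
        have h5 := fx (f x) (fxh x hx hx') (fxk x hx hx')
        rw [← h4, (hτ _).1] at h5
        exact (Sum.inl_injective h5).symm
  refine ⟨hinv.toPerm f, h, ?_, ?_⟩
  · intro x
    refine ⟨hinv x, ?_⟩
    show f x ≠ x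
    by_cases hx : x = h
    · subst hx; rw [fh]; exact hhk.symm
    · by_cases hx' : x = k
      · subst hx'; rw [fk]; exact hhk
      · intro h3
        have h4 := fx x hx hx'
        rw [h3] at h4
        exact (hτ _).2 h4
  · have hk : (hinv.toPerm f) h = k := fh
    refine ⟨ha, ?_, hc, ?_, ?_⟩
    · rw [hk]; exact hb
    · rw [hk]; exact hd
    · rw [hk]
      intro x hx hx'
      exact fx x hx hx'

theorem ins3 {H : Type} (τ₁ τ₂ : Equiv.Perm H) (h₁ h₂ : H) (τ' : Equiv.Perm (H ⊕ Bool))
    (p₁ : IsPair τ₁) (p₂ : IsPair τ₂) (i₁ : IsIns τ₁ h₁ τ') (i₂ : IsIns τ₂ h₂ τ') :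
    τ₁ = τ₂ ∧ h₁ = h₂ := by
  have hh : h₁ = h₂ := Sum.inl_injective (i₁.a.symm.trans i₂.a)
  subst hh
  have hk : τ₁ h₁ = τ₂ h₁ := Sum.inl_injective (i₁.b.symm.trans i₂.b)
  refine ⟨?_, rfl⟩
  ext x
  by_cases hx : x = h₁
  · subst hx; exact hk
  · by_cases hx' : x = τ₁ h₁
    · rw [hx', (p₁ h₁).1, hk, (p₂ h₁).1]
    · have e1 := i₁.e x hx hx'
      rw [hk] at hx'
      have e2 := i₂.e x hx hx'
      exact Sum.inl_injective (e1.symm.trans e2)

theorem ins4 {H : Type} (τ : Equiv.Perm H) (h : H) (τ' : Equiv.Perm (H ⊕ Bool))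
    (σ : Equiv.Perm H) (hτ : IsPair τ) (hi : IsIns τ h τ') :
    orb (Equiv.sumCongr σ (Equiv.swap false true) * τ') = orb (σ * τ) := by
  classical
  set φ' : Equiv.Perm (H ⊕ Bool) := Equiv.sumCongr σ (Equiv.swap false true) * τ' with hφ'
  have pa : φ' (Sum.inr false) = Sum.inl (σ h) := by
    rw [hφ', Equiv.Perm.mul_apply, hi.a]; rfl
  have pb : φ' (Sum.inr true) = Sum.inl (σ (τ h)) := by
    rw [hφ', Equiv.Perm.mul_apply, hi.b]; rfl
  have pc : φ' (Sum.inl h) = Sum.inr true := by
    rw [hφ', Equiv.Perm.mul_apply, hi.c]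
    simp
  have pd : φ' (Sum.inl (τ h)) = Sum.inr false := by
    rw [hφ', Equiv.Perm.mul_apply, hi.d]
    simp
  have pe : ∀ x, x ≠ h → x ≠ τ h → φ' (Sum.inl x) = Sum.inl (σ (τ x)) := by
    intro x hx hx'
    rw [hφ', Equiv.Perm.mul_apply, hi.e x hx hx']; rfl
  clear_value φ'
  symm
  let r : H ⊕ Bool → H := fun z => match z with
    | Sum.inl x => x
    | Sum.inr true => σ (τ h)
    | Sum.inr false => σ h
  have st : ∀ z, φ'.SameCycle z (φ' z) := fun z => ⟨1, by simp⟩
  have st' : ∀ x, (σ * τ).SameCycle x (σ (τ x)) := fun x => ⟨1, by simp⟩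
  refine orb_eq (σ * τ) φ' Sum.inl r ?_ ?_ ?_ ?_
  · intro x
    show φ'.SameCycle (Sum.inl x) (Sum.inl (σ (τ x)))
    by_cases hx : x = h
    · subst hx
      have h1 := st (Sum.inl x)
      have h2 := st (Sum.inr true)
      rw [pc] at h1
      rw [pb] at h2
      exact h1.trans h2
    · by_cases hx' : x = τ h
      · subst hx'
        rw [(hτ h).1]
        have h1 := st (Sum.inl (τ h))
        have h2 := st (Sum.inr false)
        rw [pd] at h1
        rw [pa] at h2
        exact h1.trans h2
      · have h1 := st (Sum.inl x)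
        rw [pe x hx hx'] at h1
        exact h1
  · intro z
    rcases z with x | b
    · by_cases hx : x = h
      · subst hx
        rw [pc]
        exact st' x
      · by_cases hx' : x = τ h
        · subst hx'
          rw [pd]
          have h1 := st' (τ h)
          rw [(hτ h).1] at h1
          exact h1
        · rw [pe x hx hx']
          exact st' x
    · cases b
      · rw [pa]
      · rw [pb]
  · intro x
    exact Equiv.Perm.SameCycle.refl _ _
  · intro z
    rcases z with x | b
    · exact Equiv.Perm.SameCycle.refl _ _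
    · cases b
      · have h1 := st (Sum.inr false)
        rw [pa] at h1
        exact h1.symm
      · have h1 := st (Sum.inr true)
        rw [pb] at h1
        exact h1.symm

theorem goalINS : StmtINS := by
  intro H _ _
  exact ⟨fun τ h hτ => ins1 τ h hτ, fun τ' hτ hne => ins2 τ' hτ hne,
    fun τ₁ τ₂ h₁ h₂ τ' p₁ p₂ i₁ i₂ => ins3 τ₁ τ₂ h₁ h₂ τ' p₁ p₂ i₁ i₂,
    fun τ h τ' σ hτ hi => ins4 τ h τ' σ hτ hi⟩

end Pool.Agent.Helper92.AF
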